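import Mathlib

/-!
Extremal Laplacian index of connected graphs with given domination number
(MP_c4ad93_co, Q1). Definitions for the complement graph `F`.
-/

namespace Pool.Agent.H9.Lap

open Finset Classical

/-- neighbourhood as a finset -/
noncomputable def nb {V : Type} [Fintype V] (F : SimpleGraph V) (v : V) : Finset V :=
  univ.filter (fun w => F.Adj v w)

/-- every set of at most `k` vertices has a common neighbour -/
def CN {V : Type} (F : SimpleGraph V) (k : ℕ) : Prop :=
  ∀ S : Finset V, S.card ≤ k → ∃ w, ∀ s ∈ S, F.Adj w s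

/-- no universal vertex -/
def NoUniv {V : Type} (F : SimpleGraph V) : Prop := ∀ v, ∃ x, x ≠ v ∧ ¬ F.Adj v x

/-- `f` is a Laplacian eigenfunction of `F` with eigenvalue `lam` -/
def Eig {V : Type} [Fintype V] (F : SimpleGraph V) (f : V → ℝ) (lam : ℝ) : Prop :=
  ∀ v, ∑ w ∈ nb F v, (f v - f w) = lam * f v

/-- non-neighbours of `v` other than `v` -/
noncomputable def nn {V : Type} [Fintype V] (F : SimpleGraph V) (v : V) : Finset V :=
  univ.filter (fun w => w ≠ v ∧ ¬ F.Adj v w)

noncomputable def Pos {V : Type} [Fintype V] (f : V → ℝ) : Finset V :=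
  univ.filter (fun v => 0 < f v)

noncomputable def Npos {V : Type} [Fintype V] (f : V → ℝ) : Finset V :=
  univ.filter (fun v => f v ≤ 0)

/-- total positive mass -/
noncomputable def Phi {V : Type} [Fintype V] (f : V → ℝ) : ℝ := ∑ v ∈ Pos f, f v

/-- number of neighbours with nonpositive value -/
noncomputable def ed {V : Type} [Fintype V] (F : SimpleGraph V) (f : V → ℝ) (s : V) : ℕ :=
  (nb F s ∩ Npos f).card

/-- number of neighbours with positive value -/
noncomputable def gd {V : Type} [Fintype V] (F : SimpleGraph V) (f : V → ℝ) (w : V) : ℕ :=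
  (nb F w ∩ Pos f).card

/-- standing assumptions -/
structure Ctx {V : Type} [Fintype V] (F : SimpleGraph V) (f : V → ℝ) (t : ℕ) (lam : ℝ) : Prop where
  t1 : 1 ≤ t
  cn : CN F (t + 1)
  nu : NoUniv F
  eig : Eig F f lam
  sum0 : ∑ v, f v = 0
  lt : lam < t + 1

/-- the structure of the extremal graphs, seen in the complement `F` -/
def Struct {V : Type} [Fintype V] (F : SimpleGraph V) (t : ℕ) : Prop :=
  ∃ A C : Finset V, Disjoint A C ∧ C.card = t + 1 ∧ A.card = 2 * (t + 1) ∧
    (∀ a ∈ A, ∀ v, v ∉ A → v ∉ C → ¬ F.Adj a v) ∧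
    (∀ c ∈ C, ∀ v, v ∉ A → v ∉ C → F.Adj c v) ∧
    (∀ c ∈ C, (A.filter (fun a => ¬ F.Adj c a)).card = 2) ∧
    (∀ a ∈ A, ∃! c, c ∈ C ∧ ¬ F.Adj c a)

end Pool.Agent.H9.Lap
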