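import Pool.Agent.H9.Lap.Targets

namespace Pool.Agent.H9.Lap

open Finset Classical

theorem loa_mul {h l k Mh mh : ℝ} (hh : Mh ≤ h) (hl : l ≤ -mh) (hk1 : -mh ≤ k) (hk2 : k ≤ Mh) :
    (Mh - k) * (k + mh) ≤ (h - k) * (k - l) :=
  mul_le_mul (by linarith) (by linarith) (by linarith) (by linarith)

theorem loa_I1 {h l x k Mh mh : ℝ} (hh : Mh ≤ h) (hl : l ≤ -mh) (hk1 : -mh ≤ k) (hk2 : k ≤ Mh) :
    2 * ((Mh - k) * (k + mh)) + (x - k) ^ 2 ≤ (h - x) ^ 2 + (x - l) ^ 2 := by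
  have := loa_mul hh hl hk1 hk2
  nlinarith [sq_nonneg ((h - k) - (k - l) - (x - k))]

theorem loa_I2 {h l k Mh mh : ℝ} (hh : Mh ≤ h) (hl : l ≤ -mh) (hk1 : -mh ≤ k) (hk2 : k ≤ Mh) :
    2 * ((Mh - k) * (k + mh)) + ((h - k) ^ 2 + (l - k) ^ 2) ≤ (h - l) ^ 2 := by
  have := loa_mul hh hl hk1 hk2
  nlinarith

theorem loa_gap {h l Mh mh : ℝ} (hs : -mh < Mh) (hh : Mh ≤ h) (hl : l ≤ -mh) :
    (Mh + mh) ^ 2 ≤ (h - l) ^ 2 :=
  pow_le_pow_left₀ (by linarith) (by linarith) 2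

theorem loa_gap2 {h l u Mh mh : ℝ} (hs : -mh < Mh) (hh : Mh ≤ h) (hl : l ≤ -mh) :
    (Mh + mh) ^ 2 / 4 ≤ (h - u) ^ 2 + (u - l) ^ 2 := by
  have := loa_gap hs hh hl
  nlinarith [sq_nonneg ((h - u) - (u - l)), sq_nonneg (h - l)]

section

variable {V : Type} [Fintype V] {F : SimpleGraph V} {f : V → ℝ} {X W : Finset V}
  {Mh mh kap : ℝ}

/-- Case B: one pair `(h,l)` -/
theorem loa_caseB (hO : T_ORI) (hL : Loc F f X W Mh mh) (h1 : -mh ≤ kap) (h2 : kap ≤ Mh)
    {h l : V} (hh : Mh ≤ f h) (hl : f l ≤ -mh) (hA : F.Adj h l) (hhW : h ∈ W) (hlW : l ∈ W)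
    (hX : ∀ x ∈ X, x = h ∨ x = l) :
    2 * ((Mh - kap) * (kap + mh)) + (Mh + mh) ^ 2 / 4
      ≤ EN F f (PW W) - ∑ x ∈ X, (f x - kap) ^ 2 := by
  have hne : h ≠ l := F.ne_of_adj hA
  -- the sum over X
  have hs : ∑ x ∈ X, (f x - kap) ^ 2 ≤ (f h - kap) ^ 2 + (f l - kap) ^ 2 := by
    have hsub : X ⊆ ({h, l} : Finset V) := by
      intro x hx
      rcases hX x hx with rfl | rfl <;> simp
    calc ∑ x ∈ X, (f x - kap) ^ 2 ≤ ∑ x ∈ ({h, l} : Finset V), (f x - kap) ^ 2 :=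
          Finset.sum_le_sum_of_subset_of_nonneg hsub fun _ _ _ => sq_nonneg _
      _ = _ := Finset.sum_pair hne
  -- the third vertex
  obtain ⟨u, huW, hu1, hu2⟩ : ∃ u ∈ W, F.Adj u h ∧ F.Adj u l := by
    obtain ⟨x, hx⟩ := hL.ne
    rcases hX x hx with rfl | rfl
    · exact hL.hq x hx l hlW
    · obtain ⟨u, a, b, c⟩ := hL.hq x hx h hhW
      exact ⟨u, a, c, b⟩
  have n1 : u ≠ h := F.ne_of_adj hu1
  have n2 : u ≠ l := F.ne_of_adj hu2
  have key := hO V F f (PW W) ({(h, l), (h, u), (u, l)} : Finset (V × V)) (by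
    intro p hp
    simp only [Finset.mem_insert, Finset.mem_singleton] at hp
    rcases hp with rfl | rfl | rfl
    · exact ⟨hA, ⟨hhW, hlW⟩, ⟨hlW, hhW⟩⟩
    · exact ⟨hu1.symm, ⟨hhW, huW⟩, ⟨huW, hhW⟩⟩
    · exact ⟨hu2, ⟨huW, hlW⟩, ⟨hlW, huW⟩⟩) (by
    intro p hp
    simp only [Finset.mem_insert, Finset.mem_singleton] at hp ⊢
    rcases hp with rfl | rfl | rfl <;>
      simp [n1, n2, hne, n1.symm, n2.symm, hne.symm])
  rw [Finset.sum_insert (by simp [n1, n2, hne, n1.symm, n2.symm, hne.symm]),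
    Finset.sum_insert (by simp [n1, n2, hne, n1.symm, n2.symm, hne.symm]),
    Finset.sum_singleton] at key
  have i2 := loa_I2 hh hl h1 h2
  have i3 := loa_gap2 (u := f u) hL.sep hh hl
  simp only at key
  linarith

/-- Case A: one middle vertex -/
theorem loa_caseA (hO : T_ORI) (hL : Loc F f X W Mh mh) (h1 : -mh ≤ kap) (h2 : kap ≤ Mh)
    {x y z : V} (hX : X = {x}) (hy : Mh ≤ f y) (hz : f z ≤ -mh) (hxy : F.Adj x y)
    (hxz : F.Adj x z) (hyW : y ∈ W) (hzW : z ∈ W) :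
    2 * ((Mh - kap) * (kap + mh)) + (Mh + mh) ^ 2 / 4
      ≤ EN F f (PW W) - ∑ x ∈ X, (f x - kap) ^ 2 := by
  have hxX : x ∈ X := by rw [hX]; simp
  have hxW : x ∈ W := hL.sub hxX
  have nxy : x ≠ y := F.ne_of_adj hxy
  have nxz : x ≠ z := F.ne_of_adj hxz
  have nyz : y ≠ z := by
    rintro rfl
    have := hL.sep
    linarith
  have hs : ∑ x ∈ X, (f x - kap) ^ 2 = (f x - kap) ^ 2 := by rw [hX, Finset.sum_singleton]
  have i1 := loa_I1 (x := f x) hy hz h1 h2
  have hsep := hL.sep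
  by_cases hyz : F.Adj y z
  · have key := hO V F f (PW W) ({(y, x), (x, z), (y, z)} : Finset (V × V)) (by
      intro p hp
      simp only [Finset.mem_insert, Finset.mem_singleton] at hp
      rcases hp with rfl | rfl | rfl
      · exact ⟨hxy.symm, ⟨hyW, hxW⟩, ⟨hxW, hyW⟩⟩
      · exact ⟨hxz, ⟨hxW, hzW⟩, ⟨hzW, hxW⟩⟩
      · exact ⟨hyz, ⟨hyW, hzW⟩, ⟨hzW, hyW⟩⟩) (by
      intro p hp
      simp only [Finset.mem_insert, Finset.mem_singleton] at hp ⊢
      rcases hp with rfl | rfl | rfl <;>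
        simp [nxy, nxz, nyz, nxy.symm, nxz.symm, nyz.symm])
    rw [Finset.sum_insert (by simp [nxy, nxz, nyz, nxy.symm, nxz.symm, nyz.symm]),
      Finset.sum_insert (by simp [nxy, nxz, nyz, nxy.symm, nxz.symm, nyz.symm]),
      Finset.sum_singleton] at key
    simp only at key
    have i3 := loa_gap hsep hy hz
    have i4 : 0 ≤ (Mh + mh) ^ 2 := sq_nonneg _
    linarith
  · obtain ⟨u1, hu1W, hu1x, hu1y⟩ := hL.hq x hxX y hyW
    obtain ⟨u2, hu2W, hu2x, hu2z⟩ := hL.hq x hxX z hzW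
    have a1 : u1 ≠ x := F.ne_of_adj hu1x
    have a2 : u1 ≠ y := F.ne_of_adj hu1y
    have a3 : u1 ≠ z := by rintro rfl; exact hyz hu1y.symm
    have b1 : u2 ≠ x := F.ne_of_adj hu2x
    have b2 : u2 ≠ y := by rintro rfl; exact hyz hu2z
    have b3 : u2 ≠ z := F.ne_of_adj hu2z
    by_cases hu : u1 = u2
    · subst hu
      have key := hO V F f (PW W) ({(y, x), (x, z), (y, u1), (u1, z)} : Finset (V × V)) (by
        intro p hp
        simp only [Finset.mem_insert, Finset.mem_singleton] at hp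
        rcases hp with rfl | rfl | rfl | rfl
        · exact ⟨hxy.symm, ⟨hyW, hxW⟩, ⟨hxW, hyW⟩⟩
        · exact ⟨hxz, ⟨hxW, hzW⟩, ⟨hzW, hxW⟩⟩
        · exact ⟨hu1y.symm, ⟨hyW, hu1W⟩, ⟨hu1W, hyW⟩⟩
        · exact ⟨hu2z, ⟨hu1W, hzW⟩, ⟨hzW, hu1W⟩⟩) (by
        intro p hp
        simp only [Finset.mem_insert, Finset.mem_singleton] at hp ⊢
        rcases hp with rfl | rfl | rfl | rfl <;>
          simp [nxy, nxz, nyz, nxy.symm, nxz.symm, nyz.symm, a1, a2, a3, a1.symm, a2.symm,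
            a3.symm])
      rw [Finset.sum_insert (by simp [nxy, nxz, nyz, nxy.symm, nxz.symm, nyz.symm, a1, a2, a3,
          a1.symm, a2.symm, a3.symm]),
        Finset.sum_insert (by simp [nxy, nxz, nyz, nxy.symm, nxz.symm, nyz.symm, a1, a2, a3,
          a1.symm, a2.symm, a3.symm]),
        Finset.sum_insert (by simp [nxy, nxz, nyz, nxy.symm, nxz.symm, nyz.symm, a1, a2, a3,
          a1.symm, a2.symm, a3.symm]),
        Finset.sum_singleton] at key
      simp only at key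
      have i3 := loa_gap2 (u := f u1) hsep hy hz
      linarith
    · have hu' : u2 ≠ u1 := fun h => hu h.symm
      have key := hO V F f (PW W)
        ({(y, x), (x, z), (y, u1), (u1, x), (x, u2), (u2, z)} : Finset (V × V)) (by
        intro p hp
        simp only [Finset.mem_insert, Finset.mem_singleton] at hp
        rcases hp with rfl | rfl | rfl | rfl | rfl | rfl
        · exact ⟨hxy.symm, ⟨hyW, hxW⟩, ⟨hxW, hyW⟩⟩
        · exact ⟨hxz, ⟨hxW, hzW⟩, ⟨hzW, hxW⟩⟩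
        · exact ⟨hu1y.symm, ⟨hyW, hu1W⟩, ⟨hu1W, hyW⟩⟩
        · exact ⟨hu1x, ⟨hu1W, hxW⟩, ⟨hxW, hu1W⟩⟩
        · exact ⟨hu2x.symm, ⟨hxW, hu2W⟩, ⟨hu2W, hxW⟩⟩
        · exact ⟨hu2z, ⟨hu2W, hzW⟩, ⟨hzW, hu2W⟩⟩) (by
        intro p hp
        simp only [Finset.mem_insert, Finset.mem_singleton] at hp ⊢
        rcases hp with rfl | rfl | rfl | rfl | rfl | rfl <;>
          simp [nxy, nxz, nyz, nxy.symm, nxz.symm, nyz.symm, a1, a2, a3, a1.symm, a2.symm,
            a3.symm, b1, b2, b3, b1.symm, b2.symm, b3.symm, hu, hu'])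
      rw [Finset.sum_insert (by simp [nxy, nxz, nyz, nxy.symm, nxz.symm, nyz.symm, a1, a2, a3,
          a1.symm, a2.symm, a3.symm, b1, b2, b3, b1.symm, b2.symm, b3.symm, hu, hu']),
        Finset.sum_insert (by simp [nxy, nxz, nyz, nxy.symm, nxz.symm, nyz.symm, a1, a2, a3,
          a1.symm, a2.symm, a3.symm, b1, b2, b3, b1.symm, b2.symm, b3.symm, hu, hu']),
        Finset.sum_insert (by simp [nxy, nxz, nyz, nxy.symm, nxz.symm, nyz.symm, a1, a2, a3,
          a1.symm, a2.symm, a3.symm, b1, b2, b3, b1.symm, b2.symm, b3.symm, hu, hu']),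
        Finset.sum_insert (by simp [nxy, nxz, nyz, nxy.symm, nxz.symm, nyz.symm, a1, a2, a3,
          a1.symm, a2.symm, a3.symm, b1, b2, b3, b1.symm, b2.symm, b3.symm, hu, hu']),
        Finset.sum_insert (by simp [nxy, nxz, nyz, nxy.symm, nxz.symm, nyz.symm, a1, a2, a3,
          a1.symm, a2.symm, a3.symm, b1, b2, b3, b1.symm, b2.symm, b3.symm, hu, hu']),
        Finset.sum_singleton] at key
      simp only at key
      have i3 := loa_gap hsep hy hz
      have j1 : (f y - f x) ^ 2 / 2 ≤ (f y - f u1) ^ 2 + (f u1 - f x) ^ 2 := by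
        nlinarith [sq_nonneg ((f y - f u1) - (f u1 - f x))]
      have j2 : (f x - f z) ^ 2 / 2 ≤ (f x - f u2) ^ 2 + (f u2 - f z) ^ 2 := by
        nlinarith [sq_nonneg ((f x - f u2) - (f u2 - f z))]
      have j3 : (f y - f z) ^ 2 / 2 ≤ (f y - f x) ^ 2 + (f x - f z) ^ 2 := by
        nlinarith [sq_nonneg ((f y - f x) - (f x - f z))]
      linarith

end

theorem loa_mod (hO : T_ORI) : T_LOA := by
  intro V _ F f X W Mh mh kap hL h1 h2
  obtain ⟨x0, hx0⟩ := hL.ne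
  haveI : Nonempty V := ⟨x0⟩
  have hsep := hL.sep
  choose! y hyW hyA hyM using hL.hy
  choose! z hzW hzA hzM using hL.hz
  set U : ℝ := 2 * ((Mh - kap) * (kap + mh)) with hU
  have hU0 : 0 ≤ U := by
    rw [hU]
    exact mul_nonneg (by norm_num) (mul_nonneg (by linarith) (by linarith))
  set Hi := X.filter (fun x => Mh ≤ f x) with hHi
  set Lo := X.filter (fun x => f x ≤ -mh) with hLo
  set Mid := X.filter (fun x => -mh < f x ∧ f x < Mh) with hMid
  set P1 := Hi.image (fun x => (x, z x)) with hP1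
  set P2 := Lo.image (fun x => (y x, x)) with hP2
  set P := P1 ∪ P2 with hP
  set O1 := Mid.image (fun x => (y x, x)) with hO1
  set O2 := Mid.image (fun x => (x, z x)) with hO2
  have hPp : ∀ p ∈ P, Mh ≤ f p.1 ∧ f p.2 ≤ -mh ∧ F.Adj p.1 p.2 ∧ p.1 ∈ W ∧ p.2 ∈ W ∧
      (p.1 ∈ X ∨ p.2 ∈ X) := by
    intro p hp
    rw [hP, Finset.mem_union, hP1, hP2, Finset.mem_image, Finset.mem_image] at hp
    rcases hp with ⟨x, hx, rfl⟩ | ⟨x, hx, rfl⟩
    · rw [hHi, Finset.mem_filter] at hx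
      exact ⟨hx.2, hzM x hx.1, hzA x hx.1, hL.sub hx.1, hzW x hx.1, Or.inl hx.1⟩
    · rw [hLo, Finset.mem_filter] at hx
      exact ⟨hyM x hx.1, hx.2, (hyA x hx.1).symm, hyW x hx.1, hL.sub hx.1, Or.inr hx.1⟩
  have hO1p : ∀ p ∈ O1, Mh ≤ f p.1 ∧ (-mh < f p.2 ∧ f p.2 < Mh) ∧ F.Adj p.1 p.2 ∧ p.1 ∈ W ∧
      p.2 ∈ W ∧ (p.1 ∈ X ∨ p.2 ∈ X) := by
    intro p hp
    rw [hO1, Finset.mem_image] at hp
    obtain ⟨x, hx, rfl⟩ := hp
    rw [hMid, Finset.mem_filter] at hx
    exact ⟨hyM x hx.1, hx.2, (hyA x hx.1).symm, hyW x hx.1, hL.sub hx.1, Or.inr hx.1⟩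
  have hO2p : ∀ p ∈ O2, (-mh < f p.1 ∧ f p.1 < Mh) ∧ f p.2 ≤ -mh ∧ F.Adj p.1 p.2 ∧ p.1 ∈ W ∧
      p.2 ∈ W ∧ (p.1 ∈ X ∨ p.2 ∈ X) := by
    intro p hp
    rw [hO2, Finset.mem_image] at hp
    obtain ⟨x, hx, rfl⟩ := hp
    rw [hMid, Finset.mem_filter] at hx
    exact ⟨hx.2, hzM x hx.1, hzA x hx.1, hL.sub hx.1, hzW x hx.1, Or.inl hx.1⟩
  have hall : ∀ p ∈ O1 ∪ O2 ∪ P, f p.2 < f p.1 ∧ F.Adj p.1 p.2 ∧ p.1 ∈ W ∧ p.2 ∈ W ∧
      (p.1 ∈ X ∨ p.2 ∈ X) := by
    intro p hp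
    rw [Finset.mem_union, Finset.mem_union] at hp
    rcases hp with (hp | hp) | hp
    · obtain ⟨q1, q2, q3⟩ := hO1p p hp
      exact ⟨by linarith [q2.2], q3⟩
    · obtain ⟨q1, q2, q3⟩ := hO2p p hp
      exact ⟨by linarith [q1.1], q3⟩
    · obtain ⟨q1, q2, q3⟩ := hPp p hp
      exact ⟨by linarith, q3⟩
  have key := hO V F f (PX W X) (O1 ∪ O2 ∪ P) (by
    intro p hp
    obtain ⟨_, q2, q3, q4, q5⟩ := hall p hp
    exact ⟨q2, ⟨q3, q4, q5⟩, ⟨q4, q3, q5.symm⟩⟩) (by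
    intro p hp hp'
    have q1 := (hall p hp).1
    have q2 := (hall _ hp').1
    simp only at q2
    linarith)
  have d1 : Disjoint O1 O2 := by
    rw [Finset.disjoint_left]
    intro p hp hp'
    have q1 := (hO1p p hp).1
    have q2 := (hO2p p hp').1.2
    linarith
  have d2 : Disjoint (O1 ∪ O2) P := by
    rw [Finset.disjoint_left]
    intro p hp hp'
    obtain ⟨q1, q2, -⟩ := hPp p hp'
    rcases Finset.mem_union.1 hp with hp | hp
    · have := (hO1p p hp).2.1.1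
      linarith
    · have := (hO2p p hp).1.2
      linarith
  rw [Finset.sum_union d2, Finset.sum_union d1] at key
  have s1 : ∑ p ∈ O1, (f p.1 - f p.2) ^ 2 = ∑ x ∈ Mid, (f (y x) - f x) ^ 2 := by
    rw [hO1, Finset.sum_image]
    intro a _ b _ hab
    exact (Prod.mk.inj hab).2
  have s2 : ∑ p ∈ O2, (f p.1 - f p.2) ^ 2 = ∑ x ∈ Mid, (f x - f (z x)) ^ 2 := by
    rw [hO2, Finset.sum_image]
    intro a _ b _ hab
    exact (Prod.mk.inj hab).1
  have s3 : ∑ x ∈ Mid, (f x - kap) ^ 2 + Mid.card * U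
      ≤ ∑ x ∈ Mid, (f (y x) - f x) ^ 2 + ∑ x ∈ Mid, (f x - f (z x)) ^ 2 := by
    rw [← Finset.sum_add_distrib, ← nsmul_eq_mul, ← Finset.sum_const, ← Finset.sum_add_distrib]
    refine Finset.sum_le_sum fun x hx => ?_
    rw [hMid, Finset.mem_filter] at hx
    have := loa_I1 (x := f x) (hyM x hx.1) (hzM x hx.1) h1 h2
    rw [hU]
    linarith
  have s4 : ∑ x ∈ Hi, (f x - kap) ^ 2 = ∑ p ∈ P1, (f p.1 - kap) ^ 2 := by
    rw [hP1, Finset.sum_image]
    intro a _ b _ hab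
    exact (Prod.mk.inj hab).1
  have s5 : ∑ x ∈ Lo, (f x - kap) ^ 2 = ∑ p ∈ P2, (f p.2 - kap) ^ 2 := by
    rw [hP2, Finset.sum_image]
    intro a _ b _ hab
    exact (Prod.mk.inj hab).2
  have s6 : ∑ p ∈ P1, (f p.1 - kap) ^ 2 ≤ ∑ p ∈ P, (f p.1 - kap) ^ 2 :=
    Finset.sum_le_sum_of_subset_of_nonneg Finset.subset_union_left fun _ _ _ => sq_nonneg _
  have s7 : ∑ p ∈ P2, (f p.2 - kap) ^ 2 ≤ ∑ p ∈ P, (f p.2 - kap) ^ 2 :=
    Finset.sum_le_sum_of_subset_of_nonneg Finset.subset_union_right fun _ _ _ => sq_nonneg _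
  have s8 : ∑ p ∈ P, (f p.1 - kap) ^ 2 + ∑ p ∈ P, (f p.2 - kap) ^ 2 + P.card * U
      ≤ ∑ p ∈ P, (f p.1 - f p.2) ^ 2 := by
    rw [← Finset.sum_add_distrib, ← nsmul_eq_mul, ← Finset.sum_const, ← Finset.sum_add_distrib]
    refine Finset.sum_le_sum fun p hp => ?_
    obtain ⟨q1, q2, -⟩ := hPp p hp
    have := loa_I2 q1 q2 h1 h2
    rw [hU]
    linarith
  have s9 : ∑ x ∈ X, (f x - kap) ^ 2 = ∑ x ∈ Mid, (f x - kap) ^ 2
      + (∑ x ∈ Hi, (f x - kap) ^ 2 + ∑ x ∈ Lo, (f x - kap) ^ 2) := by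
    have e1 := Finset.sum_filter_add_sum_filter_not X (fun x => Mh ≤ f x)
      (fun x => (f x - kap) ^ 2)
    have e2 := Finset.sum_filter_add_sum_filter_not (X.filter (fun x => ¬ Mh ≤ f x))
      (fun x => f x ≤ -mh) (fun x => (f x - kap) ^ 2)
    rw [Finset.filter_filter, Finset.filter_filter] at e2
    have e3 : X.filter (fun x => ¬ Mh ≤ f x ∧ f x ≤ -mh) = Lo := by
      rw [hLo]
      refine Finset.filter_congr fun x _ => ?_
      constructor
      · exact fun h => h.2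
      · exact fun h => ⟨by linarith, h⟩
    have e4 : X.filter (fun x => ¬ Mh ≤ f x ∧ ¬ f x ≤ -mh) = Mid := by
      rw [hMid]
      refine Finset.filter_congr fun x _ => ?_
      rw [not_le, not_le]
      exact and_comm
    rw [e3, e4] at e2
    rw [← e1, ← e2]
    ring
  have main : ∑ x ∈ X, (f x - kap) ^ 2 + (Mid.card + P.card : ℝ) * U ≤ EN F f (PX W X) := by
    rw [s1, s2] at key
    rw [s9, s4, s5, add_mul]
    linarith
  have hcard : 1 ≤ Mid.card + P.card := by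
    by_contra hc
    have c1 : Mid = ∅ := Finset.card_eq_zero.1 (by omega)
    have c2 : P = ∅ := Finset.card_eq_zero.1 (by omega)
    rw [hP, Finset.union_eq_empty, hP1, hP2, Finset.image_eq_empty, Finset.image_eq_empty] at c2
    rcases le_or_gt Mh (f x0) with q | q
    · have : x0 ∈ Hi := by rw [hHi, Finset.mem_filter]; exact ⟨hx0, q⟩
      rw [c2.1] at this
      exact absurd this (Finset.notMem_empty _)
    · rcases le_or_gt (f x0) (-mh) with q' | q'
      · have : x0 ∈ Lo := by rw [hLo, Finset.mem_filter]; exact ⟨hx0, q'⟩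
        rw [c2.2] at this
        exact absurd this (Finset.notMem_empty _)
      · have : x0 ∈ Mid := by rw [hMid, Finset.mem_filter]; exact ⟨hx0, q', q⟩
        rw [c1] at this
        exact absurd this (Finset.notMem_empty _)
  have hcard' : (1 : ℝ) ≤ (Mid.card + P.card : ℝ) := by exact_mod_cast hcard
  refine ⟨by nlinarith, ?_⟩
  rcases Nat.lt_or_ge 1 (Mid.card + P.card) with hc | hc
  · left
    have hc' : (2 : ℝ) ≤ (Mid.card + P.card : ℝ) := by exact_mod_cast hc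
    have : 4 * ((Mh - kap) * (kap + mh)) = 2 * U := by rw [hU]; ring
    rw [this]
    nlinarith
  · right
    rcases Nat.eq_zero_or_pos Mid.card with hm | hm
    · -- case B
      have hpc : P.card = 1 := by omega
      obtain ⟨⟨h, l⟩, hp⟩ := Finset.card_eq_one.1 hpc
      have hmem : (h, l) ∈ P := by rw [hp]; simp
      obtain ⟨q1, q2, q3, q4, q5, -⟩ := hPp _ hmem
      refine loa_caseB hO hL h1 h2 q1 q2 q3 q4 q5 ?_
      intro x hx
      rcases le_or_gt Mh (f x) with q | q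
      · left
        have : (x, z x) ∈ P := by
          rw [hP, Finset.mem_union]
          left
          rw [hP1, Finset.mem_image]
          exact ⟨x, by rw [hHi, Finset.mem_filter]; exact ⟨hx, q⟩, rfl⟩
        rw [hp, Finset.mem_singleton] at this
        exact (Prod.mk.inj this).1
      · rcases le_or_gt (f x) (-mh) with q' | q'
        · right
          have : (y x, x) ∈ P := by
            rw [hP, Finset.mem_union]
            right
            rw [hP2, Finset.mem_image]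
            exact ⟨x, by rw [hLo, Finset.mem_filter]; exact ⟨hx, q'⟩, rfl⟩
          rw [hp, Finset.mem_singleton] at this
          exact (Prod.mk.inj this).2
        · have : x ∈ Mid := by rw [hMid, Finset.mem_filter]; exact ⟨hx, q', q⟩
          rw [Finset.card_eq_zero.1 hm] at this
          exact absurd this (Finset.notMem_empty _)
    · -- case A
      have hm1 : Mid.card = 1 := by omega
      have hp0 : P = ∅ := Finset.card_eq_zero.1 (by omega)
      obtain ⟨x, hx⟩ := Finset.card_eq_one.1 hm1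
      rw [hP, Finset.union_eq_empty, hP1, hP2, Finset.image_eq_empty, Finset.image_eq_empty]
        at hp0
      have hxX : x ∈ X := by
        have : x ∈ Mid := by rw [hx]; simp
        rw [hMid, Finset.mem_filter] at this
        exact this.1
      have hX : X = {x} := by
        ext w
        rw [Finset.mem_singleton]
        constructor
        · intro hw
          rcases le_or_gt Mh (f w) with q | q
          · have : w ∈ Hi := by rw [hHi, Finset.mem_filter]; exact ⟨hw, q⟩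
            rw [hp0.1] at this
            exact absurd this (Finset.notMem_empty _)
          · rcases le_or_gt (f w) (-mh) with q' | q'
            · have : w ∈ Lo := by rw [hLo, Finset.mem_filter]; exact ⟨hw, q'⟩
              rw [hp0.2] at this
              exact absurd this (Finset.notMem_empty _)
            · have : w ∈ Mid := by rw [hMid, Finset.mem_filter]; exact ⟨hw, q', q⟩
              rw [hx, Finset.mem_singleton] at this
              exact this
        · rintro rfl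
          exact hxX
      exact loa_caseA hO hL h1 h2 hX (hyM x hxX) (hzM x hxX) (hyA x hxX) (hzA x hxX)
        (hyW x hxX) (hzW x hxX)

end Pool.Agent.H9.Lap
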