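import Pool.Agent.H9.Lap.Targets

namespace Pool.Agent.H9.Lap

open Finset Classical

theorem main_neg {V : Type} [Fintype V] {F : SimpleGraph V} {f : V → ℝ} {t : ℕ} {lam : ℝ}
    (h : Big F f t lam) : Big F (fun v => - f v) t lam where
  t1 := h.t1
  cn := h.cn
  nu := h.nu
  eig := by
    intro v
    have := h.eig v
    calc ∑ w ∈ nb F v, (- f v - - f w) = - ∑ w ∈ nb F v, (f v - f w) := by
          rw [← Finset.sum_neg_distrib]
          exact Finset.sum_congr rfl fun w _ => by ring
      _ = lam * - f v := by rw [this]; ring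
  sum0 := by rw [Finset.sum_neg_distrib, h.sum0, neg_zero]
  lt := h.lt
  fne := by
    obtain ⟨v, hv⟩ := h.fne
    exact ⟨v, neg_ne_zero.2 hv⟩
  big := h.big
  hq := h.hq

theorem Phi_neg {V : Type} [Fintype V] {f : V → ℝ} (h0 : ∑ v, f v = 0) :
    Phi (fun v => - f v) = Phi f := by
  rw [← Phi_eq h0, Phi]
  have h1 : Npos f = Pos (fun v => - f v) ∪ univ.filter (fun v => f v = 0) := by
    ext v
    simp only [mem_Npos, Finset.mem_union, mem_Pos, Finset.mem_filter, Finset.mem_univ, true_and,
      neg_pos]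
    exact le_iff_lt_or_eq
  have h2 : Disjoint (Pos (fun v => - f v)) (univ.filter (fun v => f v = 0)) := by
    rw [Finset.disjoint_left]
    intro v hv hv'
    rw [mem_Pos] at hv
    rw [Finset.mem_filter] at hv'
    linarith [hv'.2]
  rw [h1, Finset.sum_union h2]
  have h3 : ∑ v ∈ univ.filter (fun v => f v = 0), (- f v) = 0 := by
    refine Finset.sum_eq_zero fun v hv => ?_
    rw [Finset.mem_filter] at hv
    rw [hv.2, neg_zero]
  rw [h3, add_zero]

theorem main_mod (hA : T_REA) (hB : T_REB) : T_MAIN := by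
  intro V _ F f t lam h
  obtain ⟨v0, hv0⟩ := h.fne
  haveI : Nonempty V := ⟨v0⟩
  obtain ⟨a, -, ha⟩ := Finset.exists_max_image (univ : Finset V) f ⟨v0, mem_univ _⟩
  obtain ⟨b, -, hb⟩ := Finset.exists_min_image (univ : Finset V) f ⟨v0, mem_univ _⟩
  have ha' : ∀ v, f v ≤ f a := fun v => ha v (mem_univ _)
  have hb' : ∀ v, f b ≤ f v := fun v => hb v (mem_univ _)
  rcases le_total (- f b) (f a) with hm | hm
  · rcases le_or_gt ((lam - t) * Phi f) (f a / 6) with h1 | h1
    · exact hA V F f t lam h a ha' h1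
    · exact (hB V F f t lam a b h ha' hb' hm h1).elim
  · rcases le_or_gt ((lam - t) * Phi f) (- f b / 6) with h1 | h1
    · refine hA V F (fun v => - f v) t lam (main_neg h) b (fun v => neg_le_neg (hb' v)) ?_
      rw [Phi_neg h.sum0]
      exact h1
    · refine (hB V F (fun v => - f v) t lam b a (main_neg h) (fun v => neg_le_neg (hb' v))
        (fun v => neg_le_neg (ha' v)) ?_ ?_).elim
      · simpa using hm
      · rw [Phi_neg h.sum0]
        exact h1

end Pool.Agent.H9.Lap
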