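import Pool.Agent.H9.Lap.FIN
import Pool.Agent.H9.Lap.MAIN
import Pool.Agent.H9.Lap.LOA
import Pool.Agent.H19.Lap.LCX
import Pool.Agent.H19.Lap.ROT
import Pool.Agent.H4.Lap.RegA
import Pool.Agent.H54.Lap.Spec
import Pool.Agent.H57.Lap.SUM
import Pool.Agent.H59.Lap.REA
import Pool.Agent.H59.Lap.REB
import Pool.Agent.H62.Lap.DEG
import Pool.Agent.H62.Lap.G0
import Pool.Agent.H62.Lap.KAB
import Pool.Agent.H73.Lap.Loc
import Pool.Agent.H73.Lap.Num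
import Pool.Agent.H89.Lap.EXA
import Pool.Agent.H89.Lap.GAM
import Pool.Agent.H89.Lap.REP

namespace Pool.Agent.H9.Lap

theorem all_edg : T_EDG := Pool.Agent.H4.Lap.edg
theorem all_csc : T_CSC := Pool.Agent.H4.Lap.csc Pool.Agent.H62.Lap.clq
theorem all_cnt : T_CNT := Pool.Agent.H4.Lap.cnt (Pool.Agent.H4.Lap.hub all_csc)
theorem all_rea : T_REA :=
  Pool.Agent.H59.Lap.REA.rea Pool.Agent.H62.Lap.kab
    (Pool.Agent.H62.Lap.g0 Pool.Agent.H62.Lap.min Pool.Agent.H62.Lap.deg Pool.Agent.H62.Lap.clq)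
    all_edg (Pool.Agent.H89.Lap.rep all_edg all_csc) (Pool.Agent.H4.Lap.hig all_edg all_csc)
    (Pool.Agent.H4.Lap.sep all_edg all_csc) Pool.Agent.H57.Lap.sum all_cnt Pool.Agent.H73.Lap.nu0
theorem all_gam : T_GAM :=
  Pool.Agent.H89.Lap.gam Pool.Agent.H19.Lap.lcx (loa_mod Pool.Agent.H73.Lap.ori)
    Pool.Agent.H73.Lap.lob Pool.Agent.H73.Lap.loc Pool.Agent.H73.Lap.nua Pool.Agent.H73.Lap.nub
    Pool.Agent.H73.Lap.nuc Pool.Agent.H73.Lap.nud Pool.Agent.H57.Lap.phi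
theorem all_reb : T_REB :=
  Pool.Agent.H59.Lap.REB.reb Pool.Agent.H62.Lap.kab Pool.Agent.H62.Lap.clq Pool.Agent.H57.Lap.eng
    Pool.Agent.H19.Lap.spl all_gam Pool.Agent.H57.Lap.phi Pool.Agent.H73.Lap.nui
    Pool.Agent.H73.Lap.nuj
theorem all_main : T_MAIN := main_mod all_rea all_reb
theorem all_fin : T_FIN :=
  fin_mod all_main Pool.Agent.H54.Lap.gcn Pool.Agent.H54.Lap.gnu Pool.Agent.H54.Lap.spe
    Pool.Agent.H54.Lap.cpl Pool.Agent.H54.Lap.gre Pool.Agent.H54.Lap.sgf Pool.Agent.H19.Lap.rot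
    (Pool.Agent.H54.Lap.str Pool.Agent.H54.Lap.spe) Pool.Agent.H89.Lap.exa

end Pool.Agent.H9.Lap
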