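import Pool.Agent.H9.Lap.Defs

namespace Pool.Agent.H9.Lap

open Finset Classical

variable {V : Type} [Fintype V]

theorem mem_nb {F : SimpleGraph V} {v w : V} : w ∈ nb F v ↔ F.Adj v w := by
  simp [nb]

theorem mem_nb_comm {F : SimpleGraph V} {v w : V} : w ∈ nb F v ↔ v ∈ nb F w := by
  simp [nb, SimpleGraph.adj_comm]

theorem mem_nn {F : SimpleGraph V} {v w : V} : w ∈ nn F v ↔ w ≠ v ∧ ¬ F.Adj v w := by
  simp [nn]

theorem mem_Pos {f : V → ℝ} {v : V} : v ∈ Pos f ↔ 0 < f v := by simp [Pos]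

theorem mem_Npos {f : V → ℝ} {v : V} : v ∈ Npos f ↔ f v ≤ 0 := by simp [Npos]

theorem disj_Pos_Npos (f : V → ℝ) : Disjoint (Pos f) (Npos f) := by
  rw [Finset.disjoint_left]
  intro v h1 h2
  rw [mem_Pos] at h1
  rw [mem_Npos] at h2
  linarith

theorem sum_split (f g : V → ℝ) : ∑ v, g v = ∑ v ∈ Pos f, g v + ∑ v ∈ Npos f, g v := by
  have h : (univ : Finset V) = (Pos f).disjUnion (Npos f) (disj_Pos_Npos f) := by
    ext v
    simp [mem_Pos, mem_Npos, lt_or_ge]
  rw [h, Finset.sum_disjUnion]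

/-- two vertices have at least `t` common neighbours -/
theorem pair_card {F : SimpleGraph V} {t : ℕ} (h : CN F (t + 1)) (u v : V) :
    t ≤ (nb F u ∩ nb F v).card := by
  by_contra hlt
  push Not at hlt
  obtain ⟨w, hw⟩ := h (insert u (insert v (nb F u ∩ nb F v))) (by
    refine (Finset.card_insert_le _ _).trans ?_
    have := Finset.card_insert_le v (nb F u ∩ nb F v)
    omega)
  have h1 : F.Adj w u := hw u (by simp)
  have h2 : F.Adj w v := hw v (by simp)
  have h3 : w ∈ nb F u ∩ nb F v := by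
    rw [Finset.mem_inter, mem_nb, mem_nb]
    exact ⟨h1.symm, h2.symm⟩
  have h4 := hw w (by simp [Finset.mem_inter.1 h3])
  exact F.loopless.irrefl w h4

/-- internal part of a symmetric double sum vanishes -/
theorem inner_zero (F : SimpleGraph V) (f : V → ℝ) (H : Finset V) :
    ∑ s ∈ H, ∑ w ∈ nb F s ∩ H, (f s - f w) = 0 := by
  have h : ∑ s ∈ H, ∑ w ∈ nb F s ∩ H, (f s - f w)
      = ∑ s ∈ H, ∑ w ∈ H, (if F.Adj s w then (f s - f w) else 0) := by
    refine Finset.sum_congr rfl fun s _ => ?_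
    rw [← Finset.sum_filter]
    refine Finset.sum_congr ?_ fun _ _ => rfl
    ext w
    simp [mem_nb, and_comm]
  have h2 : ∑ s ∈ H, ∑ w ∈ H, (if F.Adj s w then (f s - f w) else 0)
      = - ∑ s ∈ H, ∑ w ∈ H, (if F.Adj s w then (f s - f w) else 0) := by
    conv_lhs => rw [Finset.sum_comm]
    rw [← Finset.sum_neg_distrib]
    refine Finset.sum_congr rfl fun s _ => ?_
    rw [← Finset.sum_neg_distrib]
    refine Finset.sum_congr rfl fun w _ => ?_
    by_cases hh : F.Adj s w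
    · rw [if_pos hh, if_pos hh.symm]; ring
    · rw [if_neg hh, if_neg (fun h' => hh h'.symm)]; simp
  rw [h]; linarith

/-- summation of the eigenvalue equation over a set -/
theorem cut {F : SimpleGraph V} {f : V → ℝ} {lam : ℝ} (he : Eig F f lam) (H : Finset V) :
    lam * ∑ s ∈ H, f s = ∑ s ∈ H, ∑ w ∈ nb F s \ H, (f s - f w) := by
  have h1 : lam * ∑ s ∈ H, f s = ∑ s ∈ H, ∑ w ∈ nb F s, (f s - f w) := by
    rw [Finset.mul_sum]
    exact Finset.sum_congr rfl fun s _ => (he s).symm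
  have h2 : ∀ s, ∑ w ∈ nb F s, (f s - f w)
      = ∑ w ∈ nb F s ∩ H, (f s - f w) + ∑ w ∈ nb F s \ H, (f s - f w) := by
    intro s
    rw [Finset.sum_inter_add_sum_sdiff (nb F s) H]
  rw [h1, Finset.sum_congr rfl fun s _ => h2 s, Finset.sum_add_distrib, inner_zero, zero_add]

/-- the sum over the neighbourhood of `s` inside a set, as a double sum swapped -/
theorem sum_swap (F : SimpleGraph V) (g : V → ℝ) (A B : Finset V) :
    ∑ s ∈ A, ∑ w ∈ nb F s ∩ B, g w = ∑ w ∈ B, ((nb F w ∩ A).card : ℝ) * g w := by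
  have h : ∑ s ∈ A, ∑ w ∈ nb F s ∩ B, g w
      = ∑ s ∈ A, ∑ w ∈ B, (if F.Adj s w then g w else 0) := by
    refine Finset.sum_congr rfl fun s _ => ?_
    rw [← Finset.sum_filter]
    refine Finset.sum_congr ?_ fun _ _ => rfl
    ext w
    simp [mem_nb, and_comm]
  rw [h, Finset.sum_comm]
  refine Finset.sum_congr rfl fun w _ => ?_
  rw [← Finset.sum_filter, Finset.sum_const, nsmul_eq_mul]
  congr 2
  congr 1
  ext s
  simp [mem_nb, and_comm, SimpleGraph.adj_comm]

theorem nb_sdiff_Pos (F : SimpleGraph V) (f : V → ℝ) (s : V) :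
    nb F s \ Pos f = nb F s ∩ Npos f := by
  ext w
  simp [mem_Pos, mem_Npos, not_lt]

theorem Phi_eq {f : V → ℝ} (h0 : ∑ v, f v = 0) : ∑ w ∈ Npos f, (- f w) = Phi f := by
  have := sum_split f f
  rw [h0] at this
  rw [Finset.sum_neg_distrib, Phi]
  linarith

theorem Phi_nonneg (f : V → ℝ) : 0 ≤ Phi f :=
  Finset.sum_nonneg fun v hv => (mem_Pos.1 hv).le

theorem idt {F : SimpleGraph V} {f : V → ℝ} {lam : ℝ} (he : Eig F f lam) :
    lam * Phi f = ∑ s ∈ Pos f, (ed F f s : ℝ) * f s + ∑ w ∈ Npos f, (gd F f w : ℝ) * (- f w) := by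
  rw [Phi, cut he (Pos f)]
  have h1 : ∀ s, ∑ w ∈ nb F s \ Pos f, (f s - f w)
      = (ed F f s : ℝ) * f s + ∑ w ∈ nb F s ∩ Npos f, (- f w) := by
    intro s
    rw [nb_sdiff_Pos]
    simp only [sub_eq_add_neg]
    rw [Finset.sum_add_distrib, Finset.sum_const, nsmul_eq_mul, ed]
  rw [Finset.sum_congr rfl fun s _ => h1 s, Finset.sum_add_distrib,
    sum_swap F (fun w => - f w) (Pos f) (Npos f)]
  rfl

end Pool.Agent.H9.Lap
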