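import Mathlib

/-!
Definitions for the final statement on the Laplacian index of connected graphs with given
domination number.
-/

namespace Pool.Agent.H9.Lap

open Finset Classical

/-- `S` is a dominating set of `G` -/
def IsDom {V : Type} (G : SimpleGraph V) (S : Finset V) : Prop :=
  ∀ v, v ∉ S → ∃ s ∈ S, G.Adj s v

/-- the domination number of `G` is `g` -/
def HasDom {V : Type} (G : SimpleGraph V) (g : ℕ) : Prop :=
  IsLeast {k : ℕ | ∃ S : Finset V, IsDom G S ∧ S.card = k} g

/-- the largest eigenvalue of the Laplacian matrix of `G` is `x` -/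
def IsLapIndex {V : Type} [Fintype V] (G : SimpleGraph V) (x : ℝ) : Prop :=
  IsGreatest (spectrum ℝ (G.lapMatrix ℝ)) x

/-- The extremal structure: `V` splits into `A` (`2 (g-1)` vertices), `C` (`g-1` vertices) and the
rest `B`; all edges between `A` and `B`, no edges between `C` and `B`, every vertex of `C` has
exactly two neighbours in `A` and every vertex of `A` exactly one neighbour in `C`; the edges
inside `A`, inside `B` and inside `C` are arbitrary. -/
def Extremal {V : Type} [Fintype V] (G : SimpleGraph V) (g : ℕ) : Prop :=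
  ∃ A C : Finset V, Disjoint A C ∧ C.card = g - 1 ∧ A.card = 2 * (g - 1) ∧
    (∀ a ∈ A, ∀ b, b ∉ A → b ∉ C → G.Adj a b) ∧
    (∀ c ∈ C, ∀ b, b ∉ A → b ∉ C → ¬ G.Adj c b) ∧
    (∀ c ∈ C, (A.filter (fun a => G.Adj c a)).card = 2) ∧
    (∀ a ∈ A, ∃! c, c ∈ C ∧ G.Adj c a)

/-- the larger root of `x^2 - (n - g + 4) x + 2 n` -/
noncomputable def muS (n g : ℝ) : ℝ :=
  ((n - g + 4) + Real.sqrt ((n - g + 4) ^ 2 - 8 * n)) / 2

end Pool.Agent.H9.Lap
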