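import Pool.Agent.H9.Lap.Basic
import Pool.Agent.H9.Lap.Stmt

/-!
Targets of the modules on the side of the graph `G` (MP_c4ad93_co).
-/

namespace Pool.Agent.H9.Lap

open Finset Classical

/-- GCN -/
def T_GCN : Prop := ∀ (V : Type) [Fintype V] (G : SimpleGraph V) (t : ℕ),
  HasDom G (t + 2) → CN Gᶜ (t + 1)

/-- GNU -/
def T_GNU : Prop := ∀ (V : Type) [Fintype V] (G : SimpleGraph V), G.Connected →
  2 ≤ Fintype.card V → NoUniv Gᶜ

/-- SPE: the spectrum of the Laplacian matrix -/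
def T_SPE : Prop := ∀ (V : Type) [Fintype V] (G : SimpleGraph V) (x : ℝ),
  x ∈ spectrum ℝ (G.lapMatrix ℝ) ↔
    ∃ f : V → ℝ, (∃ v, f v ≠ 0) ∧ ∀ v, ∑ w ∈ nb G v, (f v - f w) = x * f v

/-- CPL: passing to the complement -/
def T_CPL : Prop := ∀ (V : Type) [Fintype V] (G : SimpleGraph V) (x : ℝ) (f : V → ℝ), x ≠ 0 →
  (∀ v, ∑ w ∈ nb G v, (f v - f w) = x * f v) →
  ∑ v, f v = 0 ∧ Eig Gᶜ f ((Fintype.card V : ℝ) - x)

/-- GRE: the largest eigenvalue exists -/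
def T_GRE : Prop := ∀ (V : Type) [Fintype V] [Nonempty V] (G : SimpleGraph V),
  ∃ x, IsLapIndex G x

/-- SGF: the structures on both sides -/
def T_SGF : Prop := ∀ (V : Type) [Fintype V] (G : SimpleGraph V) (t : ℕ),
  Extremal G (t + 2) ↔ Struct Gᶜ t

/-- ROT: the roots of the quadratic -/
def T_ROT : Prop := ∀ n g : ℝ, 3 ≤ g → 150 * g ^ 2 ≤ n →
  (muS n g) ^ 2 - (n - g + 4) * muS n g + 2 * n = 0 ∧ n - g + 1 < muS n g ∧ muS n g < n ∧
  (∀ x, muS n g ≤ x → (n - x - (g - 2)) * (n - (n - x) - 2) ≤ 2 * (g - 2)) ∧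
  (∀ x, muS n g ≤ x → (n - x - (g - 2)) * (n - (n - x) - 2) = 2 * (g - 2) → x = muS n g)

/-- STR: the structure gives the eigenvalue -/
def T_STR : Prop := ∀ (V : Type) [Fintype V] (G : SimpleGraph V) (g : ℕ) (x : ℝ), 3 ≤ g →
  150 * (g : ℝ) ^ 2 ≤ (Fintype.card V : ℝ) → Extremal G g →
  x ^ 2 - ((Fintype.card V : ℝ) - g + 4) * x + 2 * (Fintype.card V : ℝ) = 0 →
  (Fintype.card V : ℝ) - g + 1 < x → x ∈ spectrum ℝ (G.lapMatrix ℝ)

/-- EXA: the example -/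
def T_EXA : Prop := ∀ n g : ℕ, 3 ≤ g → 150 * g ^ 2 ≤ n →
  ∃ G : SimpleGraph (Fin n), G.Connected ∧ HasDom G g ∧ Extremal G g

/-- the final theorem -/
def T_FIN : Prop := ∀ n g : ℕ, 3 ≤ g → 150 * g ^ 2 ≤ n →
  IsGreatest {x : ℝ | ∃ G : SimpleGraph (Fin n), G.Connected ∧ HasDom G g ∧ IsLapIndex G x}
    (muS n g) ∧
  ∀ G : SimpleGraph (Fin n), G.Connected → HasDom G g →
    (IsLapIndex G (muS n g) ↔ Extremal G g)

end Pool.Agent.H9.Lap
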