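import Pool.Agent.H9.Lap.Targets
import Pool.Agent.H9.Lap.TargetsG

namespace Pool.Agent.H9.Lap

open Finset Classical

/-- `x` is an eigenvalue of the Laplacian matrix -/
def inSpec {V : Type} [Fintype V] (G : SimpleGraph V) (x : ℝ) : Prop :=
  x ∈ spectrum ℝ (G.lapMatrix ℝ)

/-- key claim -/
theorem fin_key (hM : T_MAIN) (h1 : T_GCN) (h2 : T_GNU) (h3 : T_SPE) (h4 : T_CPL) (h6 : T_SGF)
    (h7 : T_ROT) {n g : ℕ} (hg : 3 ≤ g) (hn : 150 * g ^ 2 ≤ n) (G : SimpleGraph (Fin n))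
    (hG : G.Connected) (hd : HasDom G g) {x : ℝ} (hx : inSpec G x)
    (hm : muS n g ≤ x) : x = muS n g ∧ Extremal G g := by
  obtain ⟨t, rfl⟩ : ∃ t, g = t + 2 := ⟨g - 2, by omega⟩
  have hg' : (3 : ℝ) ≤ ((t + 2 : ℕ) : ℝ) := by exact_mod_cast hg
  have hn' : 150 * ((t + 2 : ℕ) : ℝ) ^ 2 ≤ (n : ℝ) := by exact_mod_cast hn
  obtain ⟨r1, r2, r3, r4, r5⟩ := h7 n ((t + 2 : ℕ) : ℝ) hg' hn'
  have ht : (((t + 2 : ℕ) : ℝ)) - 2 = t := by push_cast; ring
  obtain ⟨f, hf, he⟩ := (h3 (Fin n) G x).1 hx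
  have hnpos : (0 : ℝ) < n := by nlinarith
  have hxpos : 0 < x := by nlinarith
  obtain ⟨e1, e2⟩ := h4 (Fin n) G x f hxpos.ne' he
  rw [Fintype.card_fin] at e2
  have hcard : 2 ≤ Fintype.card (Fin n) := by
    rw [Fintype.card_fin]; nlinarith
  have hctx : Ctx Gᶜ f t (n - x) :=
    { t1 := by omega
      cn := h1 (Fin n) G t hd
      nu := h2 (Fin n) G hG hcard
      eig := e2
      sum0 := e1
      lt := by
        push_cast at r2 hm
        linarith }
  have hbig : Big Gᶜ f t (n - x) :=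
    { hctx with
      fne := hf
      big := by
        rw [Fintype.card_fin]
        push_cast at hn'
        exact hn'
      hq := by
        rw [Fintype.card_fin]
        have := r4 x hm
        rw [ht] at this
        exact this }
  obtain ⟨s1, s2⟩ := hM (Fin n) Gᶜ f t (n - x) hbig
  rw [Fintype.card_fin] at s2
  refine ⟨r5 x hm ?_, (h6 (Fin n) G t).2 s1⟩
  rw [ht]
  exact s2

theorem fin_mod (hM : T_MAIN) (h1 : T_GCN) (h2 : T_GNU) (h3 : T_SPE) (h4 : T_CPL) (h5 : T_GRE)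
    (h6 : T_SGF) (h7 : T_ROT) (h8 : T_STR) (h9 : T_EXA) : T_FIN := by
  intro n g hg hn
  have hg' : (3 : ℝ) ≤ (g : ℝ) := by exact_mod_cast hg
  have hn' : 150 * (g : ℝ) ^ 2 ≤ (n : ℝ) := by exact_mod_cast hn
  obtain ⟨r1, r2, r3, r4, r5⟩ := h7 n g hg' hn'
  have hup : ∀ G : SimpleGraph (Fin n), G.Connected → HasDom G g →
      ∀ x, inSpec G x → x ≤ muS n g := by
    intro G hG hd x hx
    by_contra hlt
    push Not at hlt
    have := (fin_key hM h1 h2 h3 h4 h6 h7 hg hn G hG hd hx hlt.le).1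
    exact absurd this hlt.ne'
  have hstr : ∀ G : SimpleGraph (Fin n), Extremal G g →
      inSpec G (muS n g) := by
    intro G hE
    refine h8 (Fin n) G g (muS n g) hg ?_ hE ?_ ?_
    · rw [Fintype.card_fin]; exact hn'
    · rw [Fintype.card_fin]; exact r1
    · rw [Fintype.card_fin]; exact r2
  refine ⟨⟨?_, ?_⟩, ?_⟩
  · obtain ⟨G, hG, hd, hE⟩ := h9 n g hg hn
    exact ⟨G, hG, hd, hstr G hE, fun x hx => hup G hG hd x hx⟩
  · rintro x ⟨G, hG, hd, hx⟩
    exact hup G hG hd x hx.1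
  · intro G hG hd
    constructor
    · intro h
      exact (fin_key hM h1 h2 h3 h4 h6 h7 hg hn G hG hd h.1 le_rfl).2
    · intro hE
      exact ⟨hstr G hE, fun x hx => hup G hG hd x hx⟩

end Pool.Agent.H9.Lap
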