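import Pool.Agent.H9.Lap.Basic

/-!
Targets of the modules for MP_c4ad93_co. `V` is the vertex set, `F` the complement graph,
`f` an eigenfunction, `lam` its Laplacian eigenvalue in `F`, `L = lam - t`.
-/

namespace Pool.Agent.H9.Lap

open Finset Classical

/-! ## definitions used by the modules -/

/-- standing assumptions, with `n = card V` large -/
structure Big {V : Type} [Fintype V] (F : SimpleGraph V) (f : V → ℝ) (t : ℕ) (lam : ℝ) : Prop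
    extends Ctx F f t lam where
  fne : ∃ v, f v ≠ 0
  big : 150 * ((t : ℝ) + 2) ^ 2 ≤ (Fintype.card V : ℝ)
  hq : (lam - t) * ((Fintype.card V : ℝ) - lam - 2) ≤ 2 * t

/-- neighbours with nonpositive value -/
noncomputable def Cs {V : Type} [Fintype V] (F : SimpleGraph V) (f : V → ℝ) (s : V) : Finset V :=
  nb F s ∩ Npos f

/-- positive vertices with exactly `t` neighbours of nonpositive value -/
noncomputable def S0 {V : Type} [Fintype V] (F : SimpleGraph V) (f : V → ℝ) (t : ℕ) : Finset V :=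
  univ.filter (fun s => 0 < f s ∧ ed F f s = t)

/-- Regime A, after the module G0 -/
structure RA {V : Type} [Fintype V] (F : SimpleGraph V) (f : V → ℝ) (t : ℕ) (lam : ℝ) (a w0 : V) :
    Prop extends Ctx F f t lam where
  L0 : 0 ≤ lam - t
  amax : ∀ v, f v ≤ f a
  apos : 0 < f a
  small : (lam - t) * Phi f ≤ f a / 6
  L6 : lam - t < 1 / 6
  et : ∀ s, 0 < f s → t ≤ ed F f s
  w0n : f w0 < 0
  w0g : gd F f w0 = 0

/-- the set `C` and the representatives -/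
structure Rep {V : Type} [Fintype V] (F : SimpleGraph V) (f : V → ℝ) (t : ℕ) (lam : ℝ) (a : V)
    (C : Finset V) (rep : V → V) : Prop where
  card : C.card = t + 1
  neg : ∀ c ∈ C, f c ≤ 0
  pos : ∀ c ∈ C, 0 < f (rep c)
  e : ∀ c ∈ C, ed F f (rep c) = t
  cs : ∀ c ∈ C, Cs F f (rep c) = C.erase c
  high : ∀ c ∈ C, (1 - (lam - t)) * f a - (lam - t) * Phi f ≤ f (rep c)
  top : ∃ z ∈ C, rep z = a

/-- all positive vertices with `t` nonpositive neighbours have a large value -/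
def High {V : Type} [Fintype V] (F : SimpleGraph V) (f : V → ℝ) (t : ℕ) (lam : ℝ) (a : V) : Prop :=
  ∀ s ∈ S0 F f t, (1 - (lam - t)) * f a - 3 * ((lam - t) * Phi f) ≤ f s

/-- union of the sets `Cs s`, `s` in `S0` -/
noncomputable def Cst {V : Type} [Fintype V] (F : SimpleGraph V) (f : V → ℝ) (t : ℕ) : Finset V :=
  (S0 F f t).biUnion (Cs F f)

/-- energy of the adjacent pairs satisfying the symmetric condition `P` -/
noncomputable def EN {V : Type} [Fintype V] (F : SimpleGraph V) (f : V → ℝ) (P : V → V → Prop) :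
    ℝ := (1 / 2) * ∑ u, ∑ v, if F.Adj u v ∧ P u v then (f u - f v) ^ 2 else 0

/-- both ends outside `K` -/
def PR {V : Type} (K : Finset V) (u v : V) : Prop := u ∉ K ∧ v ∉ K

/-- both ends in `W`, one of them in `X` -/
def PX {V : Type} (W X : Finset V) (u v : V) : Prop := u ∈ W ∧ v ∈ W ∧ (u ∈ X ∨ v ∈ X)

/-- both ends in `W` -/
def PW {V : Type} (W : Finset V) (u v : V) : Prop := u ∈ W ∧ v ∈ W

/-- vertices outside `K` adjacent to all of `K` except possibly `k` -/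
noncomputable def WW {V : Type} [Fintype V] (F : SimpleGraph V) (K : Finset V) (k : V) :
    Finset V := univ.filter (fun v => v ∉ K ∧ ∀ k' ∈ K, k' ≠ k → F.Adj v k')

/-- local situation around the non-neighbours `X` of one hub -/
structure Loc {V : Type} [Fintype V] (F : SimpleGraph V) (f : V → ℝ) (X W : Finset V)
    (Mh mh : ℝ) : Prop where
  sub : X ⊆ W
  ne : X.Nonempty
  sep : -mh < Mh
  hy : ∀ x ∈ X, ∃ y ∈ W, F.Adj x y ∧ Mh ≤ f y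
  hz : ∀ x ∈ X, ∃ z ∈ W, F.Adj x z ∧ f z ≤ -mh
  hq : ∀ x ∈ X, ∀ v ∈ W, ∃ u ∈ W, F.Adj u x ∧ F.Adj u v

/-- the clique of common neighbours and its non-neighbours -/
structure Clq {V : Type} [Fintype V] (F : SimpleGraph V) (K : Finset V) : Prop where
  clique : ∀ k ∈ K, ∀ k' ∈ K, k ≠ k' → F.Adj k k'
  disj : ∀ k ∈ K, ∀ k' ∈ K, k ≠ k' → Disjoint (nn F k) (nn F k')
  out : ∀ k ∈ K, Disjoint (nn F k) K
  q : ∀ k ∈ K, ∀ x ∈ nn F k, ∀ v, ∃ u ∈ WW F K k, F.Adj u x ∧ F.Adj u v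

/-- the facts on the maximum `a`, the minimum `b` and their common neighbours `K` -/
structure Kab {V : Type} [Fintype V] (F : SimpleGraph V) (f : V → ℝ) (t : ℕ) (lam : ℝ) (a b : V) :
    Prop where
  L0 : 0 ≤ lam - t
  pa : 0 < f a
  nb0 : f b < 0
  nadj : ¬ F.Adj a b
  card : (nb F a ∩ nb F b).card = t
  na : ∀ y ∈ nb F a, y ∉ nb F b → f a - f y ≤ (lam - t) * (f a - f b)
  nB : ∀ z ∈ nb F b, z ∉ nb F a → f z - f b ≤ (lam - t) * (f a - f b)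

/-- numerical assumptions of Regime B: `n` number of vertices, `L = lam - t`, `M = max f`,
`m = - min f`, `P` the positive mass -/
structure Num (t n L M m P : ℝ) : Prop where
  t1 : 1 ≤ t
  big : 150 * (t + 2) ^ 2 ≤ n
  L0 : 0 ≤ L
  L1 : L < 1
  hq : L * (n - t - L - 2) ≤ 2 * t
  m0 : 0 < m
  mM : m ≤ M
  hP : (M + m) * P ≤ n * M * m
  hB : M / 6 < L * P

/-! ## graph modules, general -/

/-- DEG -/
def T_DEG : Prop := ∀ (V : Type) [Fintype V] (F : SimpleGraph V) (t : ℕ), CN F (t + 1) →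
  ∀ v, t + 1 ≤ (nb F v).card

/-- CLQ -/
def T_CLQ : Prop := ∀ (V : Type) [Fintype V] (F : SimpleGraph V) (t : ℕ), CN F (t + 1) →
  ∀ u v : V, (nb F u ∩ nb F v).card = t → Clq F (nb F u ∩ nb F v)

/-- KAB -/
def T_KAB : Prop := ∀ (V : Type) [Fintype V] (F : SimpleGraph V) (f : V → ℝ) (t : ℕ) (lam : ℝ),
  Ctx F f t lam → (∃ v, f v ≠ 0) → ∀ a b : V, (∀ v, f v ≤ f a) → (∀ v, f b ≤ f v) →
  Kab F f t lam a b

/-! ## Regime A -/

/-- MIN -/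
def T_MIN : Prop := ∀ (V : Type) [Fintype V] (F : SimpleGraph V) (f : V → ℝ) (t : ℕ) (lam : ℝ),
  Ctx F f t lam → (∃ v, f v ≠ 0) →
  ∃ e0 g0 : ℕ, e0 + g0 = t ∧ (∀ s, 0 < f s → e0 ≤ ed F f s) ∧ (∀ w, f w < 0 → g0 ≤ gd F f w) ∧
    (∃ s, 0 < f s ∧ ed F f s = e0) ∧ (∃ w, f w < 0 ∧ gd F f w = g0) ∧
    (∑ s ∈ Pos f, ((ed F f s : ℝ) - e0) * f s) + (∑ w ∈ Npos f, ((gd F f w : ℝ) - g0) * (- f w))
      = (lam - t) * Phi f

/-- G0 -/
def T_G0 : Prop := ∀ (V : Type) [Fintype V] (F : SimpleGraph V) (f : V → ℝ) (t : ℕ) (lam : ℝ),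
  Ctx F f t lam → (∃ v, f v ≠ 0) → ∀ a : V, (∀ v, f v ≤ f a) →
  (lam - t) * Phi f ≤ f a / 6 → lam - t < 1 / 6 → ∃ w0, RA F f t lam a w0

/-- EDG -/
def T_EDG : Prop := ∀ (V : Type) [Fintype V] (F : SimpleGraph V) (f : V → ℝ) (t : ℕ) (lam : ℝ)
  (a w0 : V), RA F f t lam a w0 →
  (∀ s, (lam - t) * Phi f < f s → s ∈ S0 F f t) ∧
  (∀ s s', 0 < f s → 0 < f s' → F.Adj s s' → f s - f s' ≤ (lam - t) * Phi f) ∧
  (∀ y, F.Adj a y → 0 < f y → f a - f y ≤ (lam - t) * f a) ∧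
  a ∈ S0 F f t

/-- CSC -/
def T_CSC : Prop := ∀ (V : Type) [Fintype V] (F : SimpleGraph V) (f : V → ℝ) (t : ℕ) (lam : ℝ)
  (a w0 : V), RA F f t lam a w0 → ∀ s ∈ S0 F f t,
  Cs F f s = nb F s ∩ nb F w0 ∧ (Cs F f s).card = t ∧ Clq F (Cs F f s) ∧
  ∀ S : Finset V, S.card + 1 ≤ t + 1 → ∃ w, F.Adj w w0 ∧ f w ≤ 0 ∧ ∀ x ∈ S, F.Adj w x

/-- REP -/
def T_REP : Prop := ∀ (V : Type) [Fintype V] (F : SimpleGraph V) (f : V → ℝ) (t : ℕ) (lam : ℝ)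
  (a w0 : V), RA F f t lam a w0 → ∃ C rep, Rep F f t lam a C rep

/-- HUB -/
def T_HUB : Prop := ∀ (V : Type) [Fintype V] (F : SimpleGraph V) (f : V → ℝ) (t : ℕ) (lam : ℝ)
  (a w0 : V) (C : Finset V) (rep : V → V), RA F f t lam a w0 → Rep F f t lam a C rep → 2 ≤ t →
  ∀ s ∈ S0 F f t, ∃ c ∈ C, Cs F f s = C.erase c

/-- HIG -/
def T_HIG : Prop := ∀ (V : Type) [Fintype V] (F : SimpleGraph V) (f : V → ℝ) (t : ℕ) (lam : ℝ)
  (a w0 : V) (C : Finset V) (rep : V → V), RA F f t lam a w0 → Rep F f t lam a C rep →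
  High F f t lam a

/-- SEP -/
def T_SEP : Prop := ∀ (V : Type) [Fintype V] (F : SimpleGraph V) (f : V → ℝ) (t : ℕ) (lam : ℝ)
  (a w0 : V), RA F f t lam a w0 → High F f t lam a →
  (∀ s ∈ S0 F f t, ∀ s', 0 < f s' → F.Adj s s' → s' ∈ S0 F f t) ∧
  (∀ s ∈ S0 F f t, ∃ s' ∈ S0 F f t, s' ≠ s ∧ Cs F f s' = Cs F f s) ∧
  (∀ v, v ∉ S0 F f t → v ∉ Cst F f t → ∀ c ∈ Cst F f t, F.Adj v c) ∧
  (∀ s ∈ S0 F f t, ∀ v, v ∉ S0 F f t → F.Adj s v → v ∈ Cs F f s)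

/-- SUM -/
def T_SUM : Prop := ∀ (V : Type) [Fintype V] (F : SimpleGraph V) (f : V → ℝ) (t : ℕ) (lam : ℝ),
  Eig F f lam → ∑ v, f v = 0 →
  (∀ s ∈ S0 F f t, ∀ v, v ∉ S0 F f t → F.Adj s v → v ∈ Cs F f s) →
  (∀ v, v ∉ S0 F f t → v ∉ Cst F f t → ∀ c ∈ Cst F f t, F.Adj v c) →
  (lam - t) * ∑ s ∈ S0 F f t, f s
      = ∑ c ∈ Cst F f t, (((S0 F f t).filter (fun s => c ∈ Cs F f s)).card : ℝ) * (- f c) ∧
  ((Fintype.card V : ℝ) - (S0 F f t).card - lam) * ∑ c ∈ Cst F f t, (- f c)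
      = (((Cst F f t).card : ℝ) - lam) * ∑ s ∈ S0 F f t, f s

/-- CNT: counting the classes -/
def T_CNT : Prop := ∀ (V : Type) [Fintype V] (F : SimpleGraph V) (f : V → ℝ) (t : ℕ) (lam : ℝ)
  (a w0 : V) (C : Finset V) (rep : V → V), RA F f t lam a w0 → Rep F f t lam a C rep →
  (∀ s ∈ S0 F f t, ∃ s' ∈ S0 F f t, s' ≠ s ∧ Cs F f s' = Cs F f s) →
  C ⊆ Cst F f t ∧ 2 * (t + 1) ≤ (S0 F f t).card ∧
  (∀ c ∈ Cst F f t, 2 * t ≤ ((S0 F f t).filter (fun s => c ∈ Cs F f s)).card) ∧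
  ((S0 F f t).card = 2 * (t + 1) → Cst F f t = C ∧
    (∀ s ∈ S0 F f t, ∃ c ∈ C, Cs F f s = C.erase c) ∧
    ∀ c ∈ C, ((S0 F f t).filter (fun s => Cs F f s = C.erase c)).card = 2)

/-- REA: Regime A -/
def T_REA : Prop := ∀ (V : Type) [Fintype V] (F : SimpleGraph V) (f : V → ℝ) (t : ℕ) (lam : ℝ),
  Big F f t lam → ∀ a : V, (∀ v, f v ≤ f a) → (lam - t) * Phi f ≤ f a / 6 →
  Struct F t ∧ (lam - t) * ((Fintype.card V : ℝ) - lam - 2) = 2 * t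

/-! ## Regime B -/

/-- PHI -/
def T_PHI : Prop := ∀ (V : Type) [Fintype V] (f : V → ℝ) (M m : ℝ), ∑ v, f v = 0 →
  (∀ v, f v ≤ M) → (∀ v, - m ≤ f v) → 0 ≤ M → 0 ≤ m → 0 < M + m →
  (M + m) * Phi f ≤ (Fintype.card V : ℝ) * M * m ∧ ∑ v, f v ^ 2 ≤ (Fintype.card V : ℝ) * M * m

/-- ENG: energy identity -/
def T_ENG : Prop := ∀ (V : Type) [Fintype V] (F : SimpleGraph V) (f : V → ℝ) (lam : ℝ)
  (K : Finset V), Eig F f lam → ∑ v, f v = 0 → (∀ k ∈ K, ∀ k' ∈ K, k ≠ k' → F.Adj k k') →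
  (lam - K.card) * ∑ v, f v ^ 2
    = (∑ k ∈ K, f k) ^ 2 + ((Fintype.card V : ℝ) - K.card) * ∑ k ∈ K, f k ^ 2
      - (∑ k ∈ K, ∑ x ∈ nn F k, (f x - f k) ^ 2) + EN F f (PR K)

/-- SPL: the energy splits -/
def T_SPL : Prop := ∀ (V : Type) [Fintype V] (F : SimpleGraph V) (f : V → ℝ) (K : Finset V),
  (∀ k ∈ K, ∀ k' ∈ K, k ≠ k' → Disjoint (nn F k) (nn F k')) →
  (∑ k ∈ K, EN F f (PX (WW F K k) (nn F k)) ≤ EN F f (PR K)) ∧
  (∀ k0 ∈ K, EN F f (PW (WW F K k0)) + ∑ k ∈ K.erase k0, EN F f (PX (WW F K k) (nn F k))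
    ≤ EN F f (PR K))

/-- ORI: lower bound of the energy by an oriented set of edges -/
def T_ORI : Prop := ∀ (V : Type) [Fintype V] (F : SimpleGraph V) (f : V → ℝ) (P : V → V → Prop)
  (O : Finset (V × V)), (∀ p ∈ O, F.Adj p.1 p.2 ∧ P p.1 p.2 ∧ P p.2 p.1) →
  (∀ p ∈ O, (p.2, p.1) ∉ O) → ∑ p ∈ O, (f p.1 - f p.2) ^ 2 ≤ EN F f P

/-- LOA: hub value in the middle -/
def T_LOA : Prop := ∀ (V : Type) [Fintype V] (F : SimpleGraph V) (f : V → ℝ) (X W : Finset V)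
  (Mh mh kap : ℝ), Loc F f X W Mh mh → -mh ≤ kap → kap ≤ Mh →
  (2 * ((Mh - kap) * (kap + mh)) ≤ EN F f (PX W X) - ∑ x ∈ X, (f x - kap) ^ 2) ∧
  ((4 * ((Mh - kap) * (kap + mh)) ≤ EN F f (PX W X) - ∑ x ∈ X, (f x - kap) ^ 2) ∨
   (2 * ((Mh - kap) * (kap + mh)) + (Mh + mh) ^ 2 / 4
      ≤ EN F f (PW W) - ∑ x ∈ X, (f x - kap) ^ 2))

/-- LOB: hub value near the maximum -/
def T_LOB : Prop := ∀ (V : Type) [Fintype V] (F : SimpleGraph V) (f : V → ℝ) (X W : Finset V)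
  (M m th kap : ℝ), Loc F f X W (M - th) (m - th) → (∀ v, f v ≤ M) → (∀ v, -m ≤ f v) → 0 ≤ th →
  th ≤ M + m → M - th ≤ kap → kap ≤ M →
  -(2 * th * (M + m) * X.card) ≤ EN F f (PX W X) - ∑ x ∈ X, (f x - kap) ^ 2

/-- LOC: hub value near the minimum -/
def T_LOC : Prop := ∀ (V : Type) [Fintype V] (F : SimpleGraph V) (f : V → ℝ) (X W : Finset V)
  (M m th kap : ℝ), Loc F f X W (M - th) (m - th) → (∀ v, f v ≤ M) → (∀ v, -m ≤ f v) → 0 ≤ th →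
  th < M / 2 → 2 * th * (M + m) ≤ (M / 2 - th) ^ 2 → -m ≤ kap → kap ≤ -(m - th) →
  -(2 * th * (M + m) * (X.filter (fun x => M / 2 < f x)).card) - th ^ 2 * X.card
    ≤ EN F f (PX W X) - ∑ x ∈ X, (f x - kap) ^ 2

/-- NU0: consequences of the numerical assumptions -/
def T_NU0 : Prop := ∀ t n L : ℝ, 1 ≤ t → 150 * (t + 2) ^ 2 ≤ n → 0 ≤ L → L < 1 →
  L * (n - t - L - 2) ≤ 2 * t →
  L * 596 ≤ 1 ∧ L * t ≤ 27 / 2000 ∧ L * n ≤ 2 * t + 7 / 500 ∧ 1192 * t ≤ n - t - 4 ∧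
  149 * (t + 2) ^ 2 ≤ n - t

/-- NUA -/
def T_NUA : Prop := ∀ t n L M m P kap u : ℝ, Num t n L M m P → 1 ≤ u → u ≤ 2 →
  2 * u * (M * m) - (2 * u * L + u ^ 2 / (n - t - 4)) * (M + m) ^ 2
   ≤ (n - t) * kap ^ 2 + 2 * u * ((M - L * (M + m) - kap) * (kap + (m - L * (M + m))))

/-- NUB -/
def T_NUB : Prop := ∀ t n L M m P kap : ℝ, Num t n L M m P → M - L * (M + m) ≤ kap →
  4 * (M * m) ≤ (n - t) * kap ^ 2 - 2 * (L * (M + m)) * (M + m) * n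

/-- NUC -/
def T_NUC : Prop := ∀ t n L M m P kap c : ℝ, Num t n L M m P → kap ≤ -(m - L * (M + m)) →
  c * (M / 2) ≤ P →
  4 * (M * m) ≤ (n - t) * kap ^ 2 - 2 * (L * (M + m)) * (M + m) * c - (L * (M + m)) ^ 2 * n

/-- NUD -/
def T_NUD : Prop := ∀ t n L M m P : ℝ, Num t n L M m P →
  L * (M + m) < M / 2 ∧ 2 * (L * (M + m)) * (M + m) ≤ (M / 2 - L * (M + m)) ^ 2 ∧
  0 < m - L * (M + m)

/-- NUI -/
def T_NUI : Prop := ∀ t n L M m P : ℝ, Num t n L M m P →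
  L * n * (M * m) < t * (4 * (M * m) - (4 * L + 4 / (n - t - 4)) * (M + m) ^ 2)

/-- NUJ -/
def T_NUJ : Prop := ∀ t n L M m P : ℝ, Num t n L M m P →
  L * n * (M * m) < t * (2 * (M * m) - (2 * L + 1 / (n - t - 4)) * (M + m) ^ 2)
    + (M + m) ^ 2 * (1 - 2 * L) ^ 2 / 4

/-- LCX: the local situation holds at every hub -/
def T_LCX : Prop := ∀ (V : Type) [Fintype V] (F : SimpleGraph V) (f : V → ℝ) (t : ℕ) (lam : ℝ)
  (a b : V), Ctx F f t lam → Kab F f t lam a b → Clq F (nb F a ∩ nb F b) →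
  0 < f a - (lam - t) * (f a - f b) → 0 < -f b - (lam - t) * (f a - f b) →
  ∀ k ∈ nb F a ∩ nb F b, Loc F f (nn F k) (WW F (nb F a ∩ nb F b) k)
    (f a - (lam - t) * (f a - f b)) (- f b - (lam - t) * (f a - f b))

/-- GAM: the gain at one hub -/
def T_GAM : Prop := ∀ (V : Type) [Fintype V] (F : SimpleGraph V) (f : V → ℝ) (t : ℕ) (lam : ℝ)
  (a b : V), Big F f t lam → (∀ v, f v ≤ f a) → (∀ v, f b ≤ f v) → Kab F f t lam a b →
  Clq F (nb F a ∩ nb F b) → - f b ≤ f a → f a / 6 < (lam - t) * Phi f →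
  ∀ k ∈ nb F a ∩ nb F b,
  (2 * (f a * (- f b)) - (2 * (lam - t) + 1 / ((Fintype.card V : ℝ) - t - 4)) * (f a - f b) ^ 2
    ≤ ((Fintype.card V : ℝ) - t) * f k ^ 2 + EN F f (PX (WW F (nb F a ∩ nb F b) k) (nn F k))
      - ∑ x ∈ nn F k, (f x - f k) ^ 2) ∧
  ((4 * (f a * (- f b)) - (4 * (lam - t) + 4 / ((Fintype.card V : ℝ) - t - 4)) * (f a - f b) ^ 2
    ≤ ((Fintype.card V : ℝ) - t) * f k ^ 2 + EN F f (PX (WW F (nb F a ∩ nb F b) k) (nn F k))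
      - ∑ x ∈ nn F k, (f x - f k) ^ 2) ∨
   (2 * (f a * (- f b)) - (2 * (lam - t) + 1 / ((Fintype.card V : ℝ) - t - 4)) * (f a - f b) ^ 2
      + (f a - f b) ^ 2 * (1 - 2 * (lam - t)) ^ 2 / 4
    ≤ ((Fintype.card V : ℝ) - t) * f k ^ 2 + EN F f (PW (WW F (nb F a ∩ nb F b) k))
      - ∑ x ∈ nn F k, (f x - f k) ^ 2))

/-- REB: Regime B is impossible -/
def T_REB : Prop := ∀ (V : Type) [Fintype V] (F : SimpleGraph V) (f : V → ℝ) (t : ℕ) (lam : ℝ)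
  (a b : V), Big F f t lam → (∀ v, f v ≤ f a) → (∀ v, f b ≤ f v) → - f b ≤ f a →
  f a / 6 < (lam - t) * Phi f → False

/-- MAIN: the complement side -/
def T_MAIN : Prop := ∀ (V : Type) [Fintype V] (F : SimpleGraph V) (f : V → ℝ) (t : ℕ) (lam : ℝ),
  Big F f t lam → Struct F t ∧ (lam - t) * ((Fintype.card V : ℝ) - lam - 2) = 2 * t

end Pool.Agent.H9.Lap
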